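import Mathlib

/-!
# MP_e17fb9_al: groups of regular-action automata over nonabelian finite groups

For every nonabelian finite group `Y`, the automaton group `𝔾_Y` is not isomorphic to the
restricted wreath product `Y ≀ ℤ`, and the finite state wreath power `W_Y` has no subgroup
isomorphic to `Y ≀ ℤ`.
-/

namespace Pool.Agent.Results.MP_e17fb9_al.NonabelianFails

/-! ### The lamplighter group `Y ≀ ℤ` -/

/-- The base group `⨁_{n ∈ ℤ} Y`: functions `ℤ → Y` with finite support. -/
def lamps (Y : Type*) [Group Y] : Subgroup (ℤ → Y) where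
  carrier := {f | (Function.mulSupport f).Finite}
  mul_mem' := fun {a b} ha hb => (Set.Finite.union ha hb).subset (Function.mulSupport_mul a b)
  one_mem' := by simp
  inv_mem' := by
    intro f hf
    simpa using hf

/-- The shift action of `ℤ` on the base group: `(n • f) k = f (k - n)`. -/
def shiftHom (Y : Type*) [Group Y] : Multiplicative ℤ →* MulAut (lamps Y) where
  toFun n :=
    { toFun := fun f => ⟨fun k => f.1 (k - n.toAdd), by
        have h : Function.mulSupport (fun k => f.1 (k - n.toAdd)) =
            (fun k : ℤ => k - n.toAdd) ⁻¹' Function.mulSupport f.1 := rfl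
        show (Function.mulSupport (fun k => f.1 (k - n.toAdd))).Finite
        rw [h]
        exact Set.Finite.preimage (fun a _ b _ hab => by simpa using hab) f.2⟩
      invFun := fun f => ⟨fun k => f.1 (k + n.toAdd), by
        have h : Function.mulSupport (fun k => f.1 (k + n.toAdd)) =
            (fun k : ℤ => k + n.toAdd) ⁻¹' Function.mulSupport f.1 := rfl
        show (Function.mulSupport (fun k => f.1 (k + n.toAdd))).Finite
        rw [h]
        exact Set.Finite.preimage (fun a _ b _ hab => by simpa using hab) f.2⟩
      left_inv := fun f => Subtype.ext (funext fun k => by simp)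
      right_inv := fun f => Subtype.ext (funext fun k => by simp)
      map_mul' := fun f g => rfl }
  map_one' := by
    ext f k
    simp
  map_mul' m n := by
    refine MulEquiv.ext fun f => Subtype.ext (funext fun k => ?_)
    show f.1 (k - (m.toAdd + n.toAdd)) = f.1 (k - m.toAdd - n.toAdd)
    rw [sub_sub]

/-- The restricted wreath product `Y ≀ ℤ`. -/
abbrev Lamplighter (Y : Type*) [Group Y] := lamps Y ⋊[shiftHom Y] Multiplicative ℤ

/-! ### The automaton groups -/

/-- The map `a_i` of the automaton `𝒜_Y`: `a_i (j w) = (i j) a_{j⁻¹ i} (w)`. -/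
def aFun {Y : Type*} [Group Y] : Y → List Y → List Y
  | _, [] => []
  | i, j :: w => (i * j) :: aFun (j⁻¹ * i) w

/-- The inverse of `a_i`. -/
def bFun {Y : Type*} [Group Y] : Y → List Y → List Y
  | _, [] => []
  | i, m :: w => (i⁻¹ * m) :: bFun ((i⁻¹ * m)⁻¹ * i) w

/-- The bijection `a_i` of `Y^*`. -/
def aPerm {Y : Type*} [Group Y] (i : Y) : Equiv.Perm (List Y) where
  toFun := aFun i
  invFun := bFun i
  left_inv := by
    intro w
    induction w generalizing i with
    | nil => rfl
    | cons j w ih => simp [aFun, bFun, ih]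
  right_inv := by
    intro w
    induction w generalizing i with
    | nil => rfl
    | cons j w ih =>
      simp only [aFun, bFun]
      rw [ih]
      simp

/-- The group `𝔾_Y` generated by the maps `a_i`, `i ∈ Y`. -/
def autGroup (Y : Type*) [Group Y] : Subgroup (Equiv.Perm (List Y)) :=
  Subgroup.closure (Set.range aPerm)

/-- The map defined by the state `q` of the automaton over `Y` with state set `Q` which in state
`q` outputs `g q * x` on reading the letter `x` and moves to the state `next q x`. -/
def run {Y Q : Type*} [Group Y] (g : Q → Y) (next : Q → Y → Q) : Q → List Y → List Y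
  | _, [] => []
  | q, x :: w => (g q * x) :: run g next (next q x) w

/-- The finite state wreath power `W_Y`: all maps `Y^* → Y^*` defined at some state of some
finite automaton all of whose output maps are left multiplications. -/
def W (Y : Type*) [Group Y] : Set (List Y → List Y) :=
  {f | ∃ (Q : Type) (_ : Finite Q) (g : Q → Y) (next : Q → Y → Q) (q : Q), f = run g next q}

/-! ### Proof -/

lemma aFun_length {Y : Type*} [Group Y] (i : Y) (w : List Y) :
    (aFun i w).length = w.length := by
  induction w generalizing i with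
  | nil => rfl
  | cons j w ih => simp [aFun, ih]

lemma run_length {Y Q : Type*} [Group Y] (g : Q → Y) (next : Q → Y → Q) (q : Q) (w : List Y) :
    (run g next q w).length = w.length := by
  induction w generalizing q with
  | nil => rfl
  | cons j w ih => simp [run, ih]

/-- The lamp `g` at position `n`. -/
def lamp {Y : Type*} [Group Y] (n : ℤ) (g : Y) : lamps Y :=
  ⟨Pi.mulSingle n g, (Set.finite_singleton n).subset (by
    intro k hk
    by_contra hne
    exact hk (Pi.mulSingle_eq_of_ne (M := fun _ : ℤ => Y) hne g))⟩

lemma shift_lamp {Y : Type*} [Group Y] (m : ℤ) (g : Y) :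
    shiftHom Y (Multiplicative.ofAdd m) (lamp 0 g) = lamp m g := by
  apply Subtype.ext
  funext k
  show (Pi.mulSingle 0 g : ℤ → Y) (k - m) = (Pi.mulSingle m g : ℤ → Y) k
  rcases eq_or_ne k m with rfl | h
  · simp
  · rw [Pi.mulSingle_eq_of_ne (M := fun _ : ℤ => Y) h,
      Pi.mulSingle_eq_of_ne (M := fun _ : ℤ => Y) (sub_ne_zero.2 h)]

lemma lamp_comm {Y : Type*} [Group Y] {m : ℤ} (hm : m ≠ 0) (g h : Y) :
    lamp m g * lamp 0 h = lamp 0 h * lamp m g := by
  apply Subtype.ext
  funext k
  show (Pi.mulSingle m g : ℤ → Y) k * (Pi.mulSingle 0 h : ℤ → Y) k =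
    (Pi.mulSingle 0 h : ℤ → Y) k * (Pi.mulSingle m g : ℤ → Y) k
  rcases eq_or_ne k m with rfl | h1
  · rw [Pi.mulSingle_eq_of_ne (M := fun _ : ℤ => Y) hm h]; simp
  · rw [Pi.mulSingle_eq_of_ne (M := fun _ : ℤ => Y) h1]; simp

/-- A homomorphism from `Y ≀ ℤ` to a finite group makes the lamps at `0` commute. -/
lemma finite_image {Y : Type*} [Group Y] {F : Type*} [Group F] [Finite F]
    (ψ : Lamplighter Y →* F) (g h : Y) :
    ψ (SemidirectProduct.inl (lamp 0 g * lamp 0 h)) =
      ψ (SemidirectProduct.inl (lamp 0 h * lamp 0 g)) := by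
  set t : Lamplighter Y := SemidirectProduct.inr (Multiplicative.ofAdd (1 : ℤ)) with ht
  set m := orderOf (ψ t) with hm
  have hm0 : 0 < m := (isOfFinOrder_of_finite (ψ t)).orderOf_pos
  have htm : ψ (SemidirectProduct.inr (Multiplicative.ofAdd (m : ℤ))) = 1 := by
    have h1 : (SemidirectProduct.inr (Multiplicative.ofAdd (m : ℤ)) : Lamplighter Y) = t ^ m := by
      rw [ht, ← map_pow]
      congr 1
      rw [← ofAdd_nsmul]
      simp
    rw [h1, map_pow, hm, pow_orderOf_eq_one]
  have hlamp : ψ (SemidirectProduct.inl (lamp (m : ℤ) g)) = ψ (SemidirectProduct.inl (lamp 0 g)) := by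
    rw [← shift_lamp, SemidirectProduct.inl_aut, map_mul, map_mul]
    have h2 : ψ (SemidirectProduct.inr (Multiplicative.ofAdd (m : ℤ))⁻¹) = 1 := by
      rw [map_inv, map_inv, htm, inv_one]
    rw [htm, h2, one_mul, mul_one]
  have hm' : (m : ℤ) ≠ 0 := by exact_mod_cast hm0.ne'
  have hc := congrArg (fun x => ψ (SemidirectProduct.inl x)) (lamp_comm hm' g h)
  simp only [map_mul] at hc ⊢
  rw [hlamp] at hc
  exact hc

/-- There is no embedding of `Y ≀ ℤ`, `Y` nonabelian, into the length preserving permutations
of `Y^*`. -/
lemma no_embedding {Y : Type*} [Group Y] [Finite Y] (hY : ∃ g h : Y, g * h ≠ h * g)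
    (φ : Lamplighter Y →* Equiv.Perm (List Y)) (hφ : Function.Injective φ)
    (hlen : ∀ x w, (φ x w).length = w.length) : False := by
  obtain ⟨g, h, hgh⟩ := hY
  have hne : (SemidirectProduct.inl (lamp 0 g * lamp 0 h) : Lamplighter Y) ≠
      SemidirectProduct.inl (lamp 0 h * lamp 0 g) := by
    intro heq
    have h1 := SemidirectProduct.inl_injective heq
    have h2 := congrFun (congrArg Subtype.val h1) 0
    apply hgh
    simpa [lamp] using h2
  apply hne
  apply hφ
  ext1 w
  -- restrict to words of the length of `w`
  set L := w.length with hL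
  let ψ : Lamplighter Y →* Equiv.Perm {v : List Y // v.length = L} :=
    { toFun := fun x => (φ x).subtypePerm (fun v => by rw [hlen])
      map_one' := Equiv.ext fun v => Subtype.ext (by simp)
      map_mul' := fun x y => Equiv.ext fun v => Subtype.ext (by
        show (φ (x * y)) v.1 = (φ x) ((φ y) v.1)
        rw [map_mul]; rfl) }
  have hfin : Finite {v : List Y // v.length = L} :=
    (List.finite_length_eq Y L).to_subtype
  have h3 := finite_image ψ g h
  have h4 := congrArg (fun e : Equiv.Perm {v : List Y // v.length = L} => (e ⟨w, rfl⟩).1) h3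
  exact h4

theorem result (Y : Type*) [Group Y] [Finite Y] (hY : ∃ g h : Y, g * h ≠ h * g) :
    IsEmpty (autGroup Y ≃* Lamplighter Y) ∧
    ¬ ∃ φ : Lamplighter Y →* Equiv.Perm (List Y), Function.Injective φ ∧
      ∀ x, (φ x : List Y → List Y) ∈ W Y := by
  constructor
  · refine ⟨fun e => ?_⟩
    have hlenG : ∀ x ∈ autGroup Y, ∀ w : List Y, (x w).length = w.length := by
      intro x hx
      induction hx using Subgroup.closure_induction with
      | mem x hx =>
        obtain ⟨i, rfl⟩ := hx
        exact aFun_length i
      | one => intro w; rfl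
      | mul x y _ _ hx hy => intro w; rw [Equiv.Perm.mul_apply, hx, hy]
      | inv x _ hx =>
        intro w
        rw [← hx (x⁻¹ w)]
        simp
    refine no_embedding hY ((autGroup Y).subtype.comp e.symm.toMonoidHom) ?_ ?_
    · exact Subtype.val_injective.comp e.symm.injective
    · intro x w
      exact hlenG _ (e.symm x).2 w
  · rintro ⟨φ, hφ, hW⟩
    refine no_embedding hY φ hφ ?_
    intro x w
    obtain ⟨Q, _, g, next, q, hq⟩ := hW x
    rw [hq]
    exact run_length g next q w

end Pool.Agent.Results.MP_e17fb9_al.NonabelianFails
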